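import Pool.Agent.helper68.BD2.Spec
import Pool.Agent.helper13.BEY.COB

set_option autoImplicit false

open Complex MeasureTheory

namespace Pool.Agent.BEY

open Pool.Agent.helper84.DM Pool.Agent.helper78.ED Pool.Agent.DH Pool.Agent.LDH

theorem COC (hSEP : SEP_stmt) (hDTS : DTS_stmt) (hMOS : MOS_stmt) (hCLJ : CLJ_stmt)
    (hCLW : CLW_stmt) (hTAZ : TAZ_stmt) (hWTJ : WTJ_stmt) : COC_stmt := by
  classical
  intro s₀ ε hs₀ hε
  obtain ⟨CS, hCS, hS⟩ := hSEP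
  obtain ⟨δ₀, hδ₀, hC1⟩ := hCLJ s₀ (ε / 4) hs₀ (by positivity)
  obtain ⟨δ₁, hδ₁, hC2⟩ := hCLW (ε / 4) (by positivity)
  obtain ⟨δ, hδdef⟩ : ∃ δ, δ = min δ₀ (min δ₁ (1 / 16)) := ⟨_, rfl⟩
  have hδ0 : 0 < δ := by
    rw [hδdef]
    exact lt_min hδ₀ (lt_min hδ₁ (by norm_num))
  have hδ1 : δ ≤ δ₀ := by
    rw [hδdef]
    exact min_le_left _ _
  have hδ2 : δ ≤ δ₁ := by
    rw [hδdef]
    exact (min_le_right _ _).trans (min_le_left _ _)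
  have hδ3 : δ ≤ 1 / 16 := by
    rw [hδdef]
    exact (min_le_right _ _).trans (min_le_right _ _)
  obtain ⟨κ, C₁, T₁, hκ0, hκ1, hC₁, h1⟩ := hC1 δ hδ0 hδ1
  obtain ⟨T₂, h2⟩ := hDTS δ hδ0 (by linarith)
  obtain ⟨C₂, T₃, hC₂, h3⟩ := hC2 δ hδ0 hδ2
  obtain ⟨T₄, h4⟩ := hTAZ κ hκ0 hκ1
  obtain ⟨Cd, hCd, hd⟩ := divisor_bound (κ / 6) (by positivity)
  obtain ⟨T₅, hT₅⟩ : ∃ T₅ : ℝ, ∀ T, T₅ ≤ T → 16 * Real.log T ≤ T ^ κ := by
    have h5 := (isLittleO_log_rpow_atTop hκ0).bound (show (0 : ℝ) < 1 / 16 by norm_num)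
    obtain ⟨T₅, h6⟩ := Filter.eventually_atTop.1 (h5.and (Filter.eventually_ge_atTop (1 : ℝ)))
    refine ⟨T₅, fun T hT => ?_⟩
    obtain ⟨h7, h8⟩ := h6 T hT
    rw [Real.norm_of_nonneg (Real.log_nonneg h8), Real.norm_of_nonneg (by positivity)] at h7
    linarith
  obtain ⟨T₆, hT₆⟩ : ∃ T₆ : ℝ, ∀ T, T₆ ≤ T → Cd ≤ T ^ (κ / 2) :=
    Filter.eventually_atTop.1 ((tendsto_rpow_atTop (by positivity)).eventually_ge_atTop Cd)
  obtain ⟨Ba, hBa⟩ : ∃ Ba : ℝ, Ba = 12 / ε := ⟨_, rfl⟩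
  have hBa0 : 0 < Ba := by
    rw [hBa]
    positivity
  refine ⟨CS * (68 * C₁ * Ba ^ 3 + C₂ * Ba),
    max 8 (max T₁ (max T₂ (max T₃ (max T₄ (max T₅ T₆))))), by positivity, ?_⟩
  intro T σ A hT hσ1 hσ2 hOk Z hZ
  obtain ⟨hA1, hA2, -, -, -, -⟩ := Ok_facts hOk
  have hT8 : 8 ≤ T := (le_max_left _ _).trans hT
  have hTa := (le_max_right _ _).trans hT
  have hTT1 : T₁ ≤ T := (le_max_left _ _).trans hTa
  have hTb := (le_max_right _ _).trans hTa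
  have hTT2 : T₂ ≤ T := (le_max_left _ _).trans hTb
  have hTc := (le_max_right _ _).trans hTb
  have hTT3 : T₃ ≤ T := (le_max_left _ _).trans hTc
  have hTd := (le_max_right _ _).trans hTc
  have hTT4 : T₄ ≤ T := (le_max_left _ _).trans hTd
  have hTe := (le_max_right _ _).trans hTd
  have hTT5 : T₅ ≤ T := (le_max_left _ _).trans hTe
  have hTT6 : T₆ ≤ T := (le_max_right _ _).trans hTe
  have hT0 : 0 < T := by linarith
  have hT1 : 1 ≤ T := by linarith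
  have hσ3 : 3 / 4 ≤ σ := by linarith
  have hσ0 : 0 < σ := by linarith
  have hlog : 1 ≤ Real.log T := by
    rw [Real.le_log_iff_exp_le hT0]
    have := Real.exp_one_lt_d9
    linarith
  -- the zeros
  have hre : ∀ ρ ∈ Z, ρ.re ≤ 1 := by
    intro ρ hρ
    by_contra h5
    exact riemannZeta_ne_zero_of_one_le_re (not_le.1 h5).le (hZ ρ hρ).1
  obtain ⟨W, hWZ, hWs, hWc⟩ := hS T (by linarith) Z fun ρ hρ => by
    obtain ⟨a1, a2, a3, a4⟩ := hZ ρ hρ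
    exact ⟨a1, by linarith, a3, a4⟩
  -- the parameters
  obtain ⟨e, he⟩ : ∃ e : ℝ, e = A / 4 := ⟨_, rfl⟩
  have he1 : 3 / 8 ≤ e := by
    rw [he]
    linarith
  have he2 : e ≤ 1 / 2 := by
    rw [he]
    linarith
  obtain ⟨D, hD⟩ : ∃ D : ℕ, D = ⌊T ^ δ⌋₊ := ⟨_, rfl⟩
  obtain ⟨Y, hY⟩ : ∃ Y : ℝ, Y = T ^ e := ⟨_, rfl⟩
  obtain ⟨M, hM⟩ : ∃ M : ℕ, M = ⌊2 * Y⌋₊ := ⟨_, rfl⟩
  have hTδ1 : 1 ≤ T ^ δ := Real.one_le_rpow hT1 hδ0.le
  have hY1 : 1 ≤ Y := by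
    rw [hY]
    exact Real.one_le_rpow hT1 (by linarith)
  have hY2 : 2 * Y ≤ T := by
    have h5 : Y ≤ T ^ (1 / 2 : ℝ) := by
      rw [hY]
      exact Real.rpow_le_rpow_of_exponent_le hT1 he2
    have h6 : T ^ (1 / 2 : ℝ) * T ^ (1 / 2 : ℝ) = T := by
      rw [← Real.rpow_add hT0]
      norm_num
    have h7 : 0 ≤ T ^ (1 / 2 : ℝ) := by positivity
    nlinarith
  have hD1 : 1 ≤ D := by
    rw [hD]
    exact Nat.le_floor (by exact_mod_cast hTδ1)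
  have hDle : (D : ℝ) ≤ T ^ δ := by
    rw [hD]
    exact Nat.floor_le (by positivity)
  have hDge : T ^ δ / 2 ≤ (D : ℝ) := by
    have h5 : T ^ δ < (D : ℝ) + 1 := by
      rw [hD]
      exact Nat.lt_floor_add_one _
    have h6 : (1 : ℝ) ≤ D := by exact_mod_cast hD1
    linarith
  have hTδY : T ^ δ ≤ Y := by
    rw [hY]
    exact Real.rpow_le_rpow_of_exponent_le hT1 (by linarith)
  have hDY : (D : ℝ) ≤ Y := hDle.trans hTδY
  have hMle : (M : ℝ) ≤ 2 * Y := by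
    rw [hM]
    exact Nat.floor_le (by positivity)
  obtain ⟨J, hJ1, hJ2⟩ := COB_J T Y hT1 hY1 (by linarith)
  obtain ⟨J', hJ3, hJ4, hJ5⟩ := COR_J2 T M hT8 (by linarith)
  have hdtc := h2 T hTT2 D Y J hD1 hDle hDY hJ1 hJ2
  rw [← hM] at hdtc
  -- class two
  obtain ⟨W₂, hW₂⟩ : ∃ W₂ : Finset ℂ, W₂ = W.filter (fun ρ => 1 / 4 ≤ T ^ δ *
    ∑ i ∈ Finset.range J, ‖Ps ((4 / 3) ^ i * Y) ρ‖) := ⟨_, rfl⟩
  obtain ⟨W₁, hW₁⟩ : ∃ W₁ : Finset ℂ, W₁ = W.filter (fun ρ => ¬ 1 / 4 ≤ T ^ δ *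
    ∑ i ∈ Finset.range J, ‖Ps ((4 / 3) ^ i * Y) ρ‖) := ⟨_, rfl⟩
  have hsplit : W₂.card + W₁.card = W.card := by
    rw [hW₁, hW₂]
    exact Finset.card_filter_add_card_filter_not _
  have hc2 : (W₂.card : ℝ) ≤ C₂ * T ^ (ε / 4) * T ^ (A * (1 - σ)) := by
    refine h3 T σ A hTT3 hσ3 hσ2 hOk J ?_ W₂ ?_ ?_ ?_
    · rw [← he, ← hY]
      exact hJ2
    · intro ρ hρ
      rw [hW₂, Finset.mem_filter] at hρ
      obtain ⟨a1, a2, a3, a4⟩ := hZ ρ (hWZ hρ.1)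
      exact ⟨a2, hre ρ (hWZ hρ.1), a3, a4⟩
    · intro ρ hρ ρ' hρ' hne
      rw [hW₂, Finset.mem_filter] at hρ hρ'
      exact hWs ρ hρ.1 ρ' hρ'.1 hne
    · intro ρ hρ
      rw [hW₂, Finset.mem_filter] at hρ
      rw [← he, ← hY]
      exact hρ.2
  -- class one
  obtain ⟨c, hc⟩ : ∃ c : ℕ → ℂ, c = fun n => if n ≤ D * M then cS D Y n else 0 := ⟨_, rfl⟩
  have hlogκ : 16 * Real.log T ≤ T ^ κ := hT₅ T hTT5
  have hNH : ∀ i, i < J' → ((2 ^ i * D : ℕ) : ℝ) ≤ 2 * T ^ (A / 4 + δ) := by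
    intro i hi
    have h5 : 2 ^ i * D ≤ M * D := Nat.mul_le_mul_right D (hJ4 i hi).le
    have h6 : ((2 ^ i * D : ℕ) : ℝ) ≤ (M : ℝ) * D := by exact_mod_cast h5
    refine h6.trans ((mul_le_mul hMle hDle (Nat.cast_nonneg _) (by linarith)).trans
      (le_of_eq ?_))
    rw [← he, Real.rpow_add hT0, hY]
    ring
  have hHT : 2 * T ^ (A / 4 + δ) ≤ T ^ 2 := by
    have h5 : T ^ δ ≤ T := by
      have h6 := Real.rpow_le_rpow_of_exponent_le hT1 (show δ ≤ 1 by linarith)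
      rwa [Real.rpow_one] at h6
    rw [← he, Real.rpow_add hT0, ← hY]
    nlinarith
  have hcT : ∀ i, i < J' → ∀ n ∈ Finset.Ioc (2 ^ i * D) (2 * (2 ^ i * D)), ‖c n‖ ≤ T ^ κ := by
    intro i hi n hn
    rw [Finset.mem_Ioc] at hn
    have hn1 : 1 ≤ n := by omega
    have hn3 : (n : ℝ) ≤ T ^ (3 : ℝ) := by
      have h5 : (n : ℝ) ≤ 2 * ((2 ^ i * D : ℕ) : ℝ) := by exact_mod_cast hn.2
      have h6 : (n : ℝ) ≤ 2 * T ^ 2 := by
        have h7 := (hNH i hi).trans hHT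
        linarith
      have h8 : T ^ (3 : ℝ) = T ^ 3 := by
        rw [← Real.rpow_natCast]
        norm_num
      rw [h8]
      nlinarith
    have h5 : ‖c n‖ ≤ d n := by
      rw [hc]
      show ‖(if n ≤ D * M then cS D Y n else 0)‖ ≤ d n
      split_ifs with h6
      · exact (hMOS D Y hD1 hDY).1 n
      · rw [norm_zero]
        exact Nat.cast_nonneg _
    have h6 : (n : ℝ) ^ (κ / 6) ≤ T ^ (κ / 2) := by
      have h7 : (n : ℝ) ^ (κ / 6) ≤ (T ^ (3 : ℝ)) ^ (κ / 6) :=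
        Real.rpow_le_rpow (Nat.cast_nonneg _) hn3 (by positivity)
      rw [← Real.rpow_mul hT0.le] at h7
      have h8 : (3 : ℝ) * (κ / 6) = κ / 2 := by ring
      rwa [h8] at h7
    have h7 : T ^ κ = T ^ (κ / 2) * T ^ (κ / 2) := by
      rw [← Real.rpow_add hT0]
      congr 1
      ring
    rw [h7]
    refine h5.trans ((hd n hn1).trans ?_)
    exact mul_le_mul (hT₆ T hTT6) h6 (by positivity) (by positivity)
  obtain ⟨K, hK⟩ : ∃ K : ℕ, K = ⌊16 * Real.log T⌋₊ + 1 := ⟨_, rfl⟩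
  have hKle : (K : ℝ) ≤ 17 * Real.log T := by
    rw [hK]
    push_cast
    have h5 : (⌊16 * Real.log T⌋₊ : ℝ) ≤ 16 * Real.log T := Nat.floor_le (by positivity)
    linarith
  obtain ⟨B, hB⟩ : ∃ B : ℝ, B = C₁ * T ^ (ε / 4) * T ^ (A * (1 - σ)) := ⟨_, rfl⟩
  have hB0 : 0 ≤ B := by
    rw [hB]
    positivity
  obtain ⟨P, hP⟩ : ∃ P : ℕ × ℕ → ℂ → Prop, P = fun q ρ =>
    (((2 ^ q.1 * D : ℕ) : ℝ)) ^ σ * T ^ (-(2 * κ)) ≤
      ‖DP (2 ^ q.1 * D) (fun n => c n * ((ww (2 ^ q.1 * D) σ q.2 n : ℝ) : ℂ)) ρ.im‖ := ⟨_, rfl⟩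
  have hex : ∀ ρ ∈ W₁, ∃ q ∈ Finset.range J' ×ˢ Finset.range K, P q ρ := by
    intro ρ hρ
    rw [hW₁, Finset.mem_filter] at hρ
    obtain ⟨a1, a2, a3, a4⟩ := hZ ρ (hWZ hρ.1)
    have h5 := hdtc ρ a1 (by linarith) a3 a4
    have h6 := not_le.1 hρ.2
    have h7 : 1 / 4 ≤ ‖∑ k ∈ Finset.Ioc D (D * M), cS D Y k * (k : ℂ) ^ (-ρ)‖ := by linarith
    obtain ⟨i, hi, h8⟩ := COB_blk T κ Y D M J' ρ hT0 hJ3 (by linarith) h7
    have hN1 : 1 ≤ 2 ^ i * D := Nat.mul_pos (by positivity) hD1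
    obtain ⟨j, hj, h9⟩ := h4 T hTT4 σ c (2 ^ i * D) ρ (by linarith) hN1
      ((hNH i hi).trans hHT) (hcT i hi) a2 (hre ρ (hWZ hρ.1)) (by rw [hc]; exact h8)
    refine ⟨(i, j), Finset.mem_product.2 ⟨Finset.mem_range.2 hi, by rw [hK]; exact hj⟩, ?_⟩
    rw [hP]
    exact h9
  have hone : ∀ q ∈ Finset.range J' ×ˢ Finset.range K, ((W₁.filter (P q)).card : ℝ) ≤ B := by
    intro q hq
    obtain ⟨hq1, hq2⟩ := Finset.mem_product.1 hq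
    have hi : q.1 < J' := Finset.mem_range.1 hq1
    have hmem : ∀ ρ ∈ W₁.filter (P q), ρ ∈ W ∧ P q ρ := by
      intro ρ hρ
      rw [Finset.mem_filter, hW₁, Finset.mem_filter] at hρ
      exact ⟨hρ.1.1, hρ.2⟩
    have hinj : Set.InjOn Complex.im (W₁.filter (P q) : Finset ℂ) := by
      intro ρ hρ ρ' hρ' he'
      by_contra hne
      have h5 := hWs ρ (hmem ρ hρ).1 ρ' (hmem ρ' hρ').1 hne
      rw [he', sub_self, abs_zero] at h5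
      linarith
    rw [← Finset.card_image_of_injOn hinj, hB]
    have hN1 : 1 ≤ 2 ^ q.1 * D := Nat.mul_pos (by positivity) hD1
    refine h1 T σ A hTT1 hσ1 hσ2 hOk (2 ^ q.1 * D)
      (fun n => c n * ((ww (2 ^ q.1 * D) σ q.2 n : ℝ) : ℂ)) _ ?_ (hNH q.1 hi) ?_ ?_ ?_ ?_
    · refine hDge.trans ?_
      have h5 : D ≤ 2 ^ q.1 * D := Nat.le_mul_of_pos_left D (by positivity)
      exact_mod_cast h5
    · intro n hn
      have h5 := (hWTJ (2 ^ q.1 * D) q.2 σ hN1 (by linarith)).1.1 n hn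
      rw [norm_mul, Complex.norm_real, Real.norm_eq_abs]
      have h6 := hcT q.1 hi n hn
      calc ‖c n‖ * |ww (2 ^ q.1 * D) σ q.2 n| ≤ T ^ κ * 1 :=
            mul_le_mul h6 h5 (abs_nonneg _) (by positivity)
        _ = T ^ κ := mul_one _
    · intro t ht
      obtain ⟨ρ, hρ, rfl⟩ := Finset.mem_image.1 ht
      obtain ⟨a1, a2, a3, a4⟩ := hZ ρ (hWZ (hmem ρ hρ).1)
      exact ⟨a3, a4⟩
    · intro s hs s' hs' hne
      obtain ⟨ρ, hρ, rfl⟩ := Finset.mem_image.1 hs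
      obtain ⟨ρ', hρ', rfl⟩ := Finset.mem_image.1 hs'
      exact hWs ρ (hmem ρ hρ).1 ρ' (hmem ρ' hρ').1 fun h5 => hne (by rw [h5])
    · intro t ht
      obtain ⟨ρ, hρ, rfl⟩ := Finset.mem_image.1 ht
      have h5 := (hmem ρ hρ).2
      rw [hP] at h5
      exact h5
  have hc1 : (W₁.card : ℝ) ≤ (J' : ℝ) * K * B := by
    have h5 : W₁ ⊆ (Finset.range J' ×ˢ Finset.range K).biUnion fun q => W₁.filter (P q) := by
      intro ρ hρ
      obtain ⟨q, hq, h6⟩ := hex ρ hρ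
      exact Finset.mem_biUnion.2 ⟨q, hq, Finset.mem_filter.2 ⟨hρ, h6⟩⟩
    have h6 : W₁.card ≤ ∑ q ∈ Finset.range J' ×ˢ Finset.range K, (W₁.filter (P q)).card :=
      (Finset.card_le_card h5).trans Finset.card_biUnion_le
    have h7 : (W₁.card : ℝ) ≤ ∑ q ∈ Finset.range J' ×ˢ Finset.range K, ((W₁.filter (P q)).card : ℝ) := by
      exact_mod_cast h6
    refine h7.trans ((Finset.sum_le_sum hone).trans ?_)
    rw [Finset.sum_const, Finset.card_product, Finset.card_range, Finset.card_range, nsmul_eq_mul]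
    push_cast
    exact le_refl _
  -- the numbers
  obtain ⟨L, hL⟩ : ∃ L : ℝ, L = Real.log T := ⟨_, rfl⟩
  rw [← hL] at hWc hlog hJ5 hKle
  obtain ⟨Q, hQ⟩ : ∃ Q : ℝ, Q = T ^ (A * (1 - σ)) := ⟨_, rfl⟩
  have hQ0 : 0 ≤ Q := by
    rw [hQ]
    positivity
  have hLle : L ≤ Ba * T ^ (ε / 12) := by
    have h5 := Real.log_le_rpow_div hT0.le (show 0 < ε / 12 by positivity)
    rw [← hL] at h5
    refine h5.trans (le_of_eq ?_)
    rw [hBa]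
    field_simp
  have hT12 : 1 ≤ T ^ (ε / 12) := Real.one_le_rpow hT1 (by positivity)
  obtain ⟨q, hq⟩ : ∃ q : ℝ, q = T ^ (ε / 12) := ⟨_, rfl⟩
  rw [← hq] at hLle hT12
  have hq3 : T ^ (ε / 4) = q ^ 3 := by
    rw [hq, ← Real.rpow_natCast, ← Real.rpow_mul hT0.le]
    congr 1
    push_cast
    ring
  have hq12 : T ^ ε = q ^ 12 := by
    rw [hq, ← Real.rpow_natCast, ← Real.rpow_mul hT0.le]
    congr 1
    push_cast
    ring
  have hL0 : 0 < L := by linarith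
  have hcard1 : (W₁.card : ℝ) ≤ 68 * C₁ * L ^ 2 * q ^ 3 * Q := by
    have h5 : (J' : ℝ) * K ≤ (4 * L) * (17 * L) :=
      mul_le_mul hJ5 hKle (Nat.cast_nonneg _) (by positivity)
    refine hc1.trans ((mul_le_mul_of_nonneg_right h5 hB0).trans (le_of_eq ?_))
    rw [hB, hq3, ← hQ]
    ring
  have hcard2 : (W₂.card : ℝ) ≤ C₂ * q ^ 3 * Q := by
    rw [← hq3, hQ]
    exact hc2
  have hW : (W.card : ℝ) ≤ (68 * C₁ * L ^ 2 + C₂) * (q ^ 3 * Q) := by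
    have h5 : (W.card : ℝ) = W₂.card + W₁.card := by exact_mod_cast hsplit.symm
    rw [h5]
    linarith
  have hq0 : 0 < q := by linarith
  have hL3 : L ^ 3 ≤ Ba ^ 3 * q ^ 3 := by
    rw [← mul_pow]
    exact pow_le_pow_left₀ hL0.le hLle 3
  have hL1 : L ≤ Ba * q ^ 3 := by
    refine hLle.trans (mul_le_mul_of_nonneg_left ?_ hBa0.le)
    exact le_self_pow₀ hT12 (by norm_num)
  have hfin : L * (68 * C₁ * L ^ 2 + C₂) ≤ (68 * C₁ * Ba ^ 3 + C₂ * Ba) * q ^ 3 := by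
    have h5 : L * (68 * C₁ * L ^ 2 + C₂) = 68 * C₁ * L ^ 3 + C₂ * L := by ring
    have h6 : 68 * C₁ * L ^ 3 ≤ 68 * C₁ * (Ba ^ 3 * q ^ 3) :=
      mul_le_mul_of_nonneg_left hL3 (by positivity)
    have h7 : C₂ * L ≤ C₂ * (Ba * q ^ 3) := mul_le_mul_of_nonneg_left hL1 hC₂.le
    rw [h5]
    linarith
  have hqq : q ^ 3 * q ^ 3 ≤ q ^ 12 := by
    rw [← pow_add]
    exact pow_le_pow_right₀ hT12 (by norm_num)
  calc (Z.card : ℝ) ≤ CS * L * W.card := hWc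
    _ ≤ CS * L * ((68 * C₁ * L ^ 2 + C₂) * (q ^ 3 * Q)) :=
        mul_le_mul_of_nonneg_left hW (by positivity)
    _ = CS * (L * (68 * C₁ * L ^ 2 + C₂)) * (q ^ 3 * Q) := by ring
    _ ≤ CS * ((68 * C₁ * Ba ^ 3 + C₂ * Ba) * q ^ 3) * (q ^ 3 * Q) := by
        refine mul_le_mul_of_nonneg_right (mul_le_mul_of_nonneg_left hfin hCS.le) (by positivity)
    _ = CS * (68 * C₁ * Ba ^ 3 + C₂ * Ba) * (q ^ 3 * q ^ 3) * Q := by ring
    _ ≤ CS * (68 * C₁ * Ba ^ 3 + C₂ * Ba) * q ^ 12 * Q := by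
        refine mul_le_mul_of_nonneg_right (mul_le_mul_of_nonneg_left hqq (by positivity)) hQ0
    _ = CS * (68 * C₁ * Ba ^ 3 + C₂ * Ba) * T ^ ε * T ^ (A * (1 - σ)) := by rw [hq12, hQ]

end Pool.Agent.BEY
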