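import Pool.Agent.helper68.BD2.K2R
import Pool.Agent.helper86.LV.All
import Pool.Agent.helper5.BEY.Assembly
import Pool.Agent.helper18.BD2.CPC
import Pool.Agent.helper67.BD2.NUE
import Pool.Agent.helper89.BD2.CLJ
import Pool.Agent.helper65.BD2.NUD
import Pool.Agent.helper30.BD2.CLW
import Pool.Agent.helper68.BD2.COC
import Pool.Agent.helper48.BD2.FIC

/-!
# Project BD2 (MP_4467b5_nt): assembly
-/

set_option autoImplicit false

namespace Pool.Agent.BEY

theorem aLVB : LV.LVB_stmt := LV.LVB LV.lONE LV.lRSQ LV.lQID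

/-- the large values theorem for a short and a long polynomial -/
theorem aK2 : K2_stmt :=
  BD2.K2 aLVB (BD2.K1 aLVB (BD2.MQ (DH.SHV DH.RID) DH.MONO LV.lQID))

/-- zero density with the exponent `max (4/(4σ-1)) (3/(1+σ))`, for every `σ > 3/4` -/
theorem fin2 : FIC_stmt := by
  have hOS0 : OS0_stmt := OS0 IBP
  have hOSS : OSS_stmt := OSS (OSA IBP) (OSB IBP)
  have hPNM : PNM_stmt := PNM PE1 hOS0 hOSS
  have hFAR : FAR_stmt := FAR (DUA FCO DIV) hPNM hOS0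
  have hMST : MST_stmt := MST GMS TAI ETA AMP hFAR
  have hLVZ : LVZ_stmt := LVZ CLU SBG WLG (SPL (BLK hMST))
  have hMOS : MOS_stmt := MOS PHF
  have hDTS : DTS_stmt := DTS (EMS LDH.EM LDH.ABL PHF) hMOS (TEL PHF)
  have hCLJ : CLJ_stmt := CLJ aK2 CPC LDH.PWB NUE
  have hCLW : CLW_stmt := CLW hLVZ (WCB PHF) (KLS LDH.KL LDH.ABL PHF) (TAS PHF) NUD
  exact FIC (COC LDH.SEP hDTS hMOS hCLJ hCLW (LDH.TAZ Pool.Agent.DH.TAY) LDH.WTJ)

end Pool.Agent.BEY
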