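import Pool.Agent.helper21.BEY.SpecB

/-!
# Project BD2 (MP_4467b5_nt): `N(σ, T) ≤ C T^(A (1-σ) + ε)`, `A = max (4/(4σ-1)) (3/(1+σ))`, for all `σ > 3/4`

RULES. Row `XXX`: file `Pool/Agent/<seat>/BD2/XXX.lean`, `import Pool.Agent.helper68.BD2.Spec` (plus library files named in the docstring),
`set_option autoImplicit false`, `namespace Pool.Agent.BEY` (the SAME namespace as project BEY),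
`open Pool.Agent.helper84.DM Pool.Agent.helper78.ED Pool.Agent.DH Pool.Agent.LDH` (and `open Complex MeasureTheory` if you want),
theorem line exactly as in the lock note. Auxiliary lemmas are prefixed `XXX_`. No straight double quotes, no convert / congr!.
Land, note DONE + path, one line to helper68.

MODELS. Every row except K2 is a TEXT PORT of a proved row of BEY: copy the file and replace `3/(8σ)` by `A/4`, `3/(4σ)` by `A/2`, `1/(2σ)` by `A/3`,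
`3/(2σ)` by `A`. The real number `A` satisfies `Ok σ A` (see `Ok_facts`).
-/

set_option autoImplicit false

open Complex MeasureTheory

namespace Pool.Agent.BEY

open Pool.Agent.helper84.DM Pool.Agent.helper78.ED Pool.Agent.DH Pool.Agent.LDH

/-- admissible exponents -/
def Ok (σ A : ℝ) : Prop := 3 / 2 ≤ A ∧ A ≤ 2 ∧ 4 ≤ A * (4 * σ - 1) ∧ 3 ≤ A * (1 + σ)

/-- all facts on `A`; everything is linear in `A` and the product `A * σ` -/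
theorem Ok_facts {σ A : ℝ} (h : Ok σ A) : 3 / 2 ≤ A ∧ A ≤ 2 ∧ 4 + A ≤ 4 * (A * σ) ∧
    3 ≤ A + A * σ ∧ 1 + A ≤ 2 * (A * σ) ∧ 4 ≤ A + 2 * (A * σ) := by
  obtain ⟨h1, h2, h3, h4⟩ := h
  refine ⟨h1, h2, ?_, ?_, ?_, ?_⟩ <;> nlinarith

/-- the exponent of the theorem -/
noncomputable def Ae (σ : ℝ) : ℝ := max (4 / (4 * σ - 1)) (3 / (1 + σ))

theorem Ok_Ae {σ : ℝ} (h : 3 / 4 ≤ σ) (h1 : σ ≤ 1) : Ok σ (Ae σ) := by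
  have h4 : 0 < 4 * σ - 1 := by linarith
  have h5 : 0 < 1 + σ := by linarith
  have e1 : 4 / (4 * σ - 1) ≤ Ae σ := le_max_left _ _
  have e2 : 3 / (1 + σ) ≤ Ae σ := le_max_right _ _
  refine ⟨le_trans ?_ e2, max_le ?_ ?_, ?_, ?_⟩
  · rw [le_div_iff₀ h5]
    linarith
  · rw [div_le_iff₀ h4]
    linarith
  · rw [div_le_iff₀ h5]
    linarith
  · rwa [div_le_iff₀ h4] at e1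
  · rwa [div_le_iff₀ h5] at e2

/-- **K2** (helper68). Large values: a short and a long polynomial are large on the same set. -/
def K2_stmt : Prop := ∀ ε : ℝ, 0 < ε → ∃ C T₀ : ℝ, 0 < C ∧ ∀ T : ℝ, T₀ ≤ T → ∀ Z : Finset ℂ,
  (∀ ρ ∈ Z, ∀ ρ' ∈ Z, |ρ.im - ρ'.im| ≤ T) →
  (∀ ρ ∈ Z, ∀ ρ' ∈ Z, ρ ≠ ρ' → 1 ≤ |ρ.im - ρ'.im|) → ∀ N M : ℕ, 1 ≤ N → 1 ≤ M → (N : ℝ) ≤ T →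
  (M : ℝ) ≤ T ^ (2 : ℕ) → ∀ (a b : ℕ → ℂ) (V G U H : ℝ), 0 < V → 0 < U →
  ∑ n ∈ Finset.Ioc N (2 * N), ‖a n‖ ^ 2 ≤ G → ∑ n ∈ Finset.Ioc M (2 * M), ‖b n‖ ^ 2 ≤ H →
  (∀ ρ ∈ Z, V ≤ ‖DP N a ρ.im‖) → (∀ ρ ∈ Z, U ≤ ‖DP M b ρ.im‖) →
  C * T ^ ε * (Real.sqrt N * G) ≤ V ^ 2 → ∀ L : ℝ, 1 ≤ L → L ≤ T →
  (Z.card : ℝ) ≤ C * T ^ ε * (M * (H / U ^ 2) * L + M * (H / U ^ 2) ^ 2 *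
    (N * (G / V ^ 2) * (T / (M * L) + 1) + T ^ (1 / 2 : ℝ) * N * (G / V ^ 2) ^ 2))

/-! ## Class one -/

/-- **CPC** (short/medium). uses: nothing. Choice of the power; port of CPB (`helper76/BEY/CPB.lean`), with `B = A/2 ∈ [3/4, 1]`: there `3/(8σ) = B/2 = A/4`, `3/(4σ) = B = A/2`, `1/(2σ) = 2B/3 = A/3`.
New: `2 ≤ k` (is `hk` there) and `T^(A/2) ≤ T^(A/2+3δ) ≤ N^(k+1)` (`hk2` there). -/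
def CPC_stmt : Prop := ∀ δ : ℝ, 0 < δ → δ ≤ 1 / 16 → ∃ T₀ : ℝ, ∀ T A : ℝ, T₀ ≤ T → 3 / 2 ≤ A →
  A ≤ 2 → ∀ N : ℕ, T ^ δ / 2 ≤ (N : ℝ) → (N : ℝ) ≤ 2 * T ^ (A / 4 + δ) →
  ∃ k : ℕ, 2 ≤ k ∧ (k : ℝ) ≤ 4 / δ ∧ T ^ (A / 3) ≤ (N : ℝ) ^ k ∧
    (N : ℝ) ^ k ≤ T ^ (A / 2 + 3 * δ) ∧ T ^ (A / 2) ≤ (N : ℝ) ^ (k + 1)

/-- **NUE** (medium, numbers). uses: nothing. Model NUB (`helper60/BEY/NUB.lean`: write everything as `exp`). `x = 16κ/δ`, `η = s₀ - 3/4 > 0`. Take `ε' = min (ε/8) (δη/4)` and `κ` such that `8x ≤ ε/8`, `2x ≤ δη/4`. `g = G/V² ≤ C₂² N^(1-2σ) T^(2x)`, `h = H/U² ≤ C₂² M^(1-2σ) T^(2x)`.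
`N ≤ 2T^(9/16) ≤ T`, `M ≤ T^(5/4)`. Third claim: `V² ≥ C₂⁻¹ N^(2σ) T^(-x)`, `√N G ≤ C₂ N^(3/2) T^x`, `N^(2σ-3/2) ≥ (T^δ/2)^(2η) ≥ T^(2δη)/2 ≥ C₁ C₂² T^(ε'+2x)` (`T` large). `L = max 1 (T^(A(1-σ)) M^(-(2-2σ)))`, `A(1-σ) ≤ 1/2`. The four terms:
`M h L ≤ C T^(2x) max (M^(2-2σ)) (T^(A(1-σ)))`, `M^(2-2σ) ≤ T^((A/2+4δ)(2-2σ)) ≤ T^(A(1-σ)+2δ)`;
`M h² N g T/(M L) ≤ C T^(6x) M^(2-4σ) N^(2-2σ) T/L`, `1/L ≤ M^(2-2σ) T^(-A(1-σ))`, `N^(2-2σ) ≤ M^(1-σ)`: `≤ C T^(6x) M^(5-7σ) T^(1-A(1-σ)) ≤ C T^(6x) T^(A(1-σ))` (`5-7σ < 0`, `M ≥ T^(A/3)`, `3 ≤ A(1+σ)`);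
`M h² N g ≤ C T^(6x) M^(3-4σ) N^(2-2σ) ≤ C T^(6x) M^(1-σ) ≤ C T^(6x) T^((A/2+4δ)(1-σ))`; `M h² T^(1/2) N g² ≤ C T^(8x) T^(1/2) (M N)^(3-4σ) ≤ C T^(8x) T^(1/2+(A/2)(3-4σ)) ≤ C T^(8x) T^(A(1-σ))` (`1 + A ≤ 2Aσ`). `ε' + 8x + 2δ ≤ ε`. -/
def NUE_stmt : Prop := ∀ s₀ ε δ : ℝ, 3 / 4 < s₀ → s₀ ≤ 1 → 0 < ε → 0 < δ → δ ≤ ε / 16 →
  δ ≤ 1 / 16 → ∃ κ ε' : ℝ, 0 < κ ∧ κ ≤ 1 ∧ 0 < ε' ∧ ∀ C₁ C₂ : ℝ, 0 < C₁ → 0 < C₂ →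
  ∃ C T₀ : ℝ, 0 < C ∧ ∀ T σ A N M G V H U : ℝ, T₀ ≤ T → s₀ ≤ σ → σ ≤ 1 → Ok σ A →
  T ^ δ / 2 ≤ N → N ≤ 2 * T ^ (A / 4 + δ) → T ^ (A / 3) ≤ M → M ≤ T ^ (A / 2 + 4 * δ) →
  N ^ 2 ≤ M → T ^ (A / 2) ≤ N * M →
  0 ≤ G → G ≤ C₂ * (N * T ^ (16 * κ / δ)) → 0 < V → N ^ (2 * σ) * T ^ (-(16 * κ / δ)) ≤ C₂ * V ^ 2 →
  0 ≤ H → H ≤ C₂ * (M * T ^ (16 * κ / δ)) → 0 < U → M ^ (2 * σ) * T ^ (-(16 * κ / δ)) ≤ C₂ * U ^ 2 →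
    N ≤ T ∧ M ≤ T ^ (2 : ℕ) ∧ C₁ * T ^ ε' * (Real.sqrt N * G) ≤ V ^ 2 ∧ ∃ L : ℝ, 1 ≤ L ∧ L ≤ T ∧
    C₁ * T ^ ε' * (M * (H / U ^ 2) * L + M * (H / U ^ 2) ^ 2 *
      (N * (G / V ^ 2) * (T / (M * L) + 1) + T ^ (1 / 2 : ℝ) * N * (G / V ^ 2) ^ 2)) ≤
      C * T ^ ε * T ^ (A * (1 - σ))

/-- **CLJ** (medium/long). uses: K2_stmt, CPC_stmt, PWB_stmt, NUE_stmt; library: `divisor_bound` (`helper59/DM/DV`), `Pool.Agent.helper66.BEY.CLI` (import it for `BEY.CLI_G`, `BEY.CLI_V`). Port of CLI. `δ₀ = min (ε/32) (1/16)`; the same `b`, `W_i`, `M = 2^i N^k`. Instead of LVS: K2 for `Z = W_i.image (fun t => t * I)`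
(as in `helper86/LV/Fin.lean`), `a, V = N^σ T^(-2κ)`, `G = N T^(2κ)` (`≤ N T^x`) for the short polynomial and `b, U = V^k/k`, `H = ∑ ‖b n‖²` for the long one. Constants: `C₂` as there `+ 1`. `N² ≤ N^k ≤ M` (`k ≥ 2`), `T^(A/2) ≤ N^(k+1) ≤ N M`; `M ≤ 2^K T^(A/2+3δ) ≤ T^(A/2+4δ)`. -/
def CLJ_stmt : Prop := ∀ s₀ ε : ℝ, 3 / 4 < s₀ → 0 < ε → ∃ δ₀ : ℝ, 0 < δ₀ ∧ ∀ δ : ℝ, 0 < δ →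
  δ ≤ δ₀ → ∃ κ C T₀ : ℝ, 0 < κ ∧ κ ≤ 1 ∧ 0 < C ∧ ∀ T σ A : ℝ, T₀ ≤ T → s₀ ≤ σ → σ ≤ 1 → Ok σ A →
  ∀ (N : ℕ) (a : ℕ → ℂ) (W : Finset ℝ), T ^ δ / 2 ≤ (N : ℝ) →
  (N : ℝ) ≤ 2 * T ^ (A / 4 + δ) → (∀ n ∈ Finset.Ioc N (2 * N), ‖a n‖ ≤ T ^ κ) →
  (∀ t ∈ W, T ≤ t ∧ t ≤ 2 * T) → (∀ s ∈ W, ∀ t ∈ W, s ≠ t → 1 ≤ |s - t|) →
  (∀ t ∈ W, (N : ℝ) ^ σ * T ^ (-(2 * κ)) ≤ ‖DP N a t‖) →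
  (W.card : ℝ) ≤ C * T ^ ε * T ^ (A * (1 - σ))

/-! ## Class two -/

/-- **NUD** (short, numbers). uses: nothing. Port of NUC (`helper68/BEY/NUC.lean`). `M^(σ-1/2) ≥ T^((A/4)(σ-1/2))`, `(A/4)(σ-1/2) ≥ 3/32`; `2 - 3A(σ-1/2) ≤ A(1-σ)` iff `4 + A ≤ 4Aσ`; `1 - (3/2)A(σ-1/2) ≤ A(1-σ)` iff `4 ≤ A + 2Aσ` (`Ok_facts`). -/
def NUD_stmt : Prop := ∀ ε : ℝ, 0 < ε → ∃ ε₁ δ₁ : ℝ, 0 < ε₁ ∧ 0 < δ₁ ∧ δ₁ ≤ 1 / 16 ∧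
  ∀ δ K C₁ : ℝ, 0 < δ → δ ≤ δ₁ → 1 ≤ K → 0 < C₁ → ∃ C T₀ : ℝ, 0 < C ∧ ∀ T σ A M : ℝ, T₀ ≤ T →
  3 / 4 ≤ σ → σ ≤ 1 → Ok σ A → T ^ (A / 4) ≤ M → M ≤ T → ∀ V : ℝ,
  V = M ^ (σ - 1 / 2) * T ^ (-(4 * δ)) / K →
    T ^ ε₁ ≤ V ∧ C₁ * T ^ ε₁ * (T ^ 2 * V ^ (-12 : ℝ) + T * V ^ (-6 : ℝ)) ≤
      C * T ^ (ε / 2) * T ^ (A * (1 - σ))

/-- **CLW** (medium). uses: LVZ_stmt, WCB_stmt, KLS_stmt, TAS_stmt, NUD_stmt. Port of CLT (`helper27/BEY/CLT.lean`). -/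
def CLW_stmt : Prop := ∀ ε : ℝ, 0 < ε → ∃ δ₁ : ℝ, 0 < δ₁ ∧ ∀ δ : ℝ, 0 < δ → δ ≤ δ₁ →
  ∃ C T₀ : ℝ, 0 < C ∧ ∀ T σ A : ℝ, T₀ ≤ T → 3 / 4 ≤ σ → σ ≤ 1 → Ok σ A → ∀ J : ℕ,
  (4 / 3) ^ J * T ^ (A / 4) ≤ 2 * T ^ 2 → ∀ W : Finset ℂ,
  (∀ ρ ∈ W, σ ≤ ρ.re ∧ ρ.re ≤ 1 ∧ T ≤ ρ.im ∧ ρ.im ≤ 2 * T) →
  (∀ ρ ∈ W, ∀ ρ' ∈ W, ρ ≠ ρ' → 1 ≤ |ρ.im - ρ'.im|) →
  (∀ ρ ∈ W, 1 / 4 ≤ T ^ δ * ∑ i ∈ Finset.range J, ‖Ps ((4 / 3) ^ i * T ^ (A / 4)) ρ‖) →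
  (W.card : ℝ) ≤ C * T ^ ε * T ^ (A * (1 - σ))

/-! ## Assembly -/

/-- **COC** (long port). uses: SEP_stmt, DTS_stmt, MOS_stmt, CLJ_stmt, CLW_stmt, TAZ_stmt, WTJ_stmt; library as in COB. Port of COB (`helper13/BEY/COB.lean`), `Y = T^(A/4)`, `T^(3/8) ≤ Y ≤ T^(1/2)`. -/
def COC_stmt : Prop := ∀ s₀ ε : ℝ, 3 / 4 < s₀ → 0 < ε → ∃ C T₀ : ℝ, 0 < C ∧ ∀ T σ A : ℝ,
  T₀ ≤ T → s₀ ≤ σ → σ ≤ 1 → Ok σ A → ∀ Z : Finset ℂ, Zer σ T Z →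
    (Z.card : ℝ) ≤ C * T ^ ε * T ^ (A * (1 - σ))

/-- **FIC** (port). uses: COC_stmt; library as in FIB. Port of FIB (`helper20/BEY/FIB.lean`): the exponent `3 / (2 * σ) * (1 - σ)` is replaced by `A * (1 - σ)` (nonnegative). -/
def FIC_stmt : Prop := ∀ s₀ ε : ℝ, 3 / 4 < s₀ → 0 < ε → ∃ C : ℝ, 0 < C ∧ ∀ T σ A : ℝ, 1 ≤ T →
  s₀ ≤ σ → σ ≤ 1 → Ok σ A → ∀ Z : Finset ℂ,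
  (∀ ρ ∈ Z, riemannZeta ρ = 0 ∧ σ ≤ ρ.re ∧ 0 < ρ.im ∧ ρ.im ≤ T) →
    ∑ ρ ∈ Z, (mult ρ : ℝ) ≤ C * T ^ (A * (1 - σ) + ε)

end Pool.Agent.BEY
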