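import Pool.Agent.helper68.BD2.MQ
import Pool.Agent.helper68.BD2.Spec

/-!
# Project BD2 (MP_4467b5_nt): large values of a short and a long polynomial on the same set
-/

set_option autoImplicit false

open Complex MeasureTheory

namespace Pool.Agent.BD2

open Pool.Agent.helper84.DM Pool.Agent.helper78.ED Pool.Agent.DH Pool.Agent.LV

/-- K1. Absorption: a bound for the double zeta sums over a set on which a short polynomial is
large. -/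
def K1_stmt : Prop := ∀ ε : ℝ, 0 < ε → ∃ C T₀ : ℝ, 0 < C ∧ ∀ T : ℝ, T₀ ≤ T → ∀ Z : Finset ℂ,
  (∀ ρ ∈ Z, ∀ ρ' ∈ Z, |ρ.im - ρ'.im| ≤ T) →
  (∀ ρ ∈ Z, ∀ ρ' ∈ Z, ρ ≠ ρ' → 1 ≤ |ρ.im - ρ'.im|) → ∀ N Y : ℕ, 1 ≤ N → 1 ≤ Y → (N : ℝ) ≤ T →
  (Y : ℝ) ≤ T ^ (2 : ℕ) → ∀ (a : ℕ → ℂ) (V G : ℝ), 0 < V →
  ∑ n ∈ Finset.Ioc N (2 * N), ‖a n‖ ^ 2 ≤ G → (∀ ρ ∈ Z, V ≤ ‖DP N a ρ.im‖) →
  C * T ^ ε * (Real.sqrt N * G) ≤ V ^ 2 →
  QQ Z Y ≤ C * T ^ ε * (Y * (Z.card : ℝ) *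
    (N * (G / V ^ 2) * Y + T ^ (1 / 2 : ℝ) * N * (G / V ^ 2) ^ 2))

theorem K_pow (t c : ℝ) (ht : 1 ≤ t) : 1 + c ^ 2 * (t * t * t) ≤ (1 + c ^ 2) * (t * t * t) := by
  have h1 : 1 ≤ t * t := by nlinarith
  have h2 : 1 ≤ t * t * t := by nlinarith
  linarith [mul_nonneg (sq_nonneg c) (zero_le_one.trans h2)]

theorem K_le (p y x : ℝ) (hp : 1 ≤ p) (hy : 0 ≤ y) (hx : 0 ≤ x) :
    10 * y + p * x ≤ 10 * p * (y + x) := by
  nlinarith [mul_nonneg (sub_nonneg.2 hp) hy, mul_nonneg (zero_le_one.trans hp) hx]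

theorem K_alg (R qL qY μ lam L Y : ℝ) (hqL : 0 ≤ qL) (hqY : 0 ≤ qY) (hμ : 0 ≤ μ)
    (hμ4 : μ ≤ 1 / 4)
    (h1 : qL ≤ lam * L * R + μ * Real.sqrt (qL * qY))
    (h2 : qY ≤ lam * Y * R + μ * Real.sqrt (qL * qY)) :
    qL ≤ 4 * (lam * L * R) + 4 * μ ^ 2 * (lam * Y * R) := by
  set s : ℝ := Real.sqrt (qL * qY) with hs
  have hs0 : 0 ≤ s := Real.sqrt_nonneg _
  have e1 : μ * s ≤ (qY + μ ^ 2 * qL) / 2 := by
    have h := sq_nonneg (Real.sqrt qY - μ * Real.sqrt qL)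
    have a1 : Real.sqrt qY ^ 2 = qY := Real.sq_sqrt hqY
    have a2 : Real.sqrt qL ^ 2 = qL := Real.sq_sqrt hqL
    have a3 : s = Real.sqrt qL * Real.sqrt qY := Real.sqrt_mul hqL _
    nlinarith
  have e2 : μ * s ≤ (qL + μ ^ 2 * qY) / 2 := by
    have h := sq_nonneg (Real.sqrt qL - μ * Real.sqrt qY)
    have a1 : Real.sqrt qY ^ 2 = qY := Real.sq_sqrt hqY
    have a2 : Real.sqrt qL ^ 2 = qL := Real.sq_sqrt hqL
    have a3 : s = Real.sqrt qL * Real.sqrt qY := Real.sqrt_mul hqL _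
    nlinarith
  have f1 : qY ≤ 2 * (lam * Y * R) + μ ^ 2 * qL := by linarith
  have f2 : qL ≤ 2 * (lam * L * R) + μ ^ 2 * qY := by linarith
  have hμ2 : μ ^ 2 ≤ 1 / 16 := by nlinarith
  have hμ20 : 0 ≤ μ ^ 2 := sq_nonneg _
  have f3 : qL ≤ 2 * (lam * L * R) + μ ^ 2 * (2 * (lam * Y * R) + μ ^ 2 * qL) :=
    f2.trans (by linarith [mul_le_mul_of_nonneg_left f1 hμ20])
  have f4 : μ ^ 2 * (μ ^ 2 * qL) ≤ qL / 2 := by
    have g1 : μ ^ 2 * qL ≤ 1 / 16 * qL := mul_le_mul_of_nonneg_right hμ2 hqL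
    have g2 : μ ^ 2 * (μ ^ 2 * qL) ≤ 1 / 16 * (μ ^ 2 * qL) :=
      mul_le_mul_of_nonneg_right hμ2 (by positivity)
    linarith
  nlinarith

/-- From `LVB`: the bound for the double sums. Here `g = G / V ^ 2`. -/
theorem K_two (K g N L Y R QL QY : ℝ) (hK : 0 ≤ K) (hg : 0 ≤ g) (hN : 1 ≤ N)
    (hL : 1 ≤ L) (hY : 1 ≤ Y) (hQL : 0 ≤ QL) (hQY : 0 ≤ QY)
    (hthr : 4 * (K * g * Real.sqrt N) ≤ 1)
    (h1 : QL ≤ K * g * (N * L ^ 2 * R + Real.sqrt (N * L / Y * (QL * QY))))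
    (h2 : QY ≤ K * g * (N * Y ^ 2 * R + Real.sqrt (N * Y / L * (QY * QL)))) :
    QL ≤ 4 * (K * g * N) * (L + (K * g * Real.sqrt N) ^ 2 * Y) * R * L := by
  have hL0 : 0 < L := by linarith
  have hY0 : 0 < Y := by linarith
  have hN0 : 0 < N := by linarith
  have hsN : 0 ≤ Real.sqrt N := Real.sqrt_nonneg _
  have hs : ∀ A B P Q : ℝ, 0 < A → 0 < B → 0 ≤ P → 0 ≤ Q →
      Real.sqrt (N * A / B * (P * Q)) = A * (Real.sqrt N * Real.sqrt (P / A * (Q / B))) := by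
    intro A B P Q hA hB hP hQ
    rw [← Real.sqrt_mul hN0.le]
    have g1 : A = Real.sqrt (A ^ 2) := (Real.sqrt_sq hA.le).symm
    conv_rhs => rw [g1]
    rw [← Real.sqrt_mul (by positivity)]
    congr 1
    rw [Real.sqrt_sq hA.le]
    field_simp
  rw [hs L Y QL QY hL0 hY0 hQL hQY] at h1
  rw [hs Y L QY QL hY0 hL0 hQY hQL] at h2
  have hc : QY / Y * (QL / L) = QL / L * (QY / Y) := by ring
  rw [hc] at h2
  set qL : ℝ := QL / L with hqL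
  set qY : ℝ := QY / Y with hqY
  have eL : QL = L * qL := by rw [hqL]; field_simp
  have eY : QY = Y * qY := by rw [hqY]; field_simp
  have hqL0 : 0 ≤ qL := by positivity
  have hqY0 : 0 ≤ qY := by positivity
  have hmain := K_alg R qL qY (K * g * Real.sqrt N) (K * g * N) L Y hqL0 hqY0
    (by positivity) (by linarith) ?_ ?_
  · rw [eL]
    calc L * qL ≤ L * (4 * (K * g * N * L * R) + 4 * (K * g * Real.sqrt N) ^ 2 *
        (K * g * N * Y * R)) := mul_le_mul_of_nonneg_left hmain hL0.le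
      _ = 4 * (K * g * N) * (L + (K * g * Real.sqrt N) ^ 2 * Y) * R * L := by ring
  · rw [eL] at h1
    have g2 : L * qL ≤ L * (K * g * N * L * R + K * g * Real.sqrt N * Real.sqrt (qL * qY)) :=
      h1.trans (le_of_eq (by ring))
    exact le_of_mul_le_mul_left g2 hL0
  · rw [eY] at h2
    have g2 : Y * qY ≤ Y * (K * g * N * Y * R + K * g * Real.sqrt N * Real.sqrt (qL * qY)) :=
      h2.trans (le_of_eq (by ring))
    exact le_of_mul_le_mul_left g2 hY0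

/-- `LVB` with `g = G / V ^ 2` -/
theorem K_LVB (hLVB : LVB_stmt) : ∀ ε : ℝ, 0 < ε → ∃ C T₀ : ℝ, 0 < C ∧ ∀ T : ℝ, T₀ ≤ T →
    ∀ Z : Finset ℂ, (∀ ρ ∈ Z, ∀ ρ' ∈ Z, |ρ.im - ρ'.im| ≤ T) →
    (∀ ρ ∈ Z, ∀ ρ' ∈ Z, ρ ≠ ρ' → 1 ≤ |ρ.im - ρ'.im|) → ∀ N L Y : ℕ, 1 ≤ N → 1 ≤ L → 1 ≤ Y →
    (N : ℝ) * L ≤ T ^ (5 : ℕ) → (Y : ℝ) ≤ T ^ (5 : ℕ) → T ^ (1 + ε) ≤ (N : ℝ) * L * Y →
    ∀ (a : ℕ → ℂ) (V G : ℝ), 0 < V → ∑ n ∈ Finset.Ioc N (2 * N), ‖a n‖ ^ 2 ≤ G →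
    (∀ ρ ∈ Z, V ≤ ‖DP N a ρ.im‖) →
    QQ Z L ≤ C * T ^ ε * (G / V ^ 2) *
      ((N : ℝ) * (L : ℝ) ^ 2 * (Z.card : ℝ) + Real.sqrt (N * L / Y * (QQ Z L * QQ Z Y))) := by
  intro ε hε
  obtain ⟨C, T₀, hC, h⟩ := hLVB ε hε
  refine ⟨C, max T₀ 1, hC, ?_⟩
  intro T hT Z h1 h2 N L Y hN hL hY hNL hYT hX a V G hV hG hDP
  have hT1 : 1 ≤ T := (le_max_right _ _).trans hT
  have hT0 : 0 < T := by linarith
  have hm := h T ((le_max_left _ _).trans hT) Z h1 h2 N L Y hN hL hY hNL hYT hX a V hV.le hDP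
  have hV2 : 0 < V ^ 2 := by positivity
  set B : ℝ := (N : ℝ) * (L : ℝ) ^ 2 * (Z.card : ℝ) + Real.sqrt (N * L / Y * (QQ Z L * QQ Z Y))
    with hB
  have hB0 : 0 ≤ B := by positivity
  have h3 : V ^ 2 * QQ Z L ≤ C * T ^ ε * G * B := by
    refine hm.trans ?_
    gcongr
  have h4 : C * T ^ ε * (G / V ^ 2) * B = C * T ^ ε * G * B / V ^ 2 := by
    field_simp
  rw [h4, le_div_iff₀ hV2]
  linarith

theorem K1 (hLVB : LVB_stmt) (hMQ : MQ_stmt) : K1_stmt := by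
  intro ε hε
  set ε₁ : ℝ := min ε 1 / 8 with hε₁
  have hm : 0 < min ε 1 := lt_min hε one_pos
  have hε₁0 : 0 < ε₁ := by positivity
  have hε₁ε : 8 * ε₁ ≤ ε := by
    rw [hε₁]
    linarith [min_le_left ε 1]
  have hε₁1 : ε₁ ≤ 1 / 8 := by
    rw [hε₁]
    linarith [min_le_right ε 1]
  obtain ⟨C₁, T₁, hC₁, hB⟩ := K_LVB hLVB ε₁ hε₁0
  obtain ⟨C₂, hC₂, hQ⟩ := hMQ ε₁ hε₁0
  refine ⟨40 * C₂ * C₁ * (1 + C₁ ^ 2) + 4 * C₁ + 1, max T₁ 16, by positivity, ?_⟩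
  intro T hT Z hdiff hsep N Y hN hY hNT hYT a V G hV hG hDP hthr
  set C : ℝ := 40 * C₂ * C₁ * (1 + C₁ ^ 2) + 4 * C₁ + 1 with hC
  have hT16 : 16 ≤ T := (le_max_right _ _).trans hT
  have hTT₁ : T₁ ≤ T := (le_max_left _ _).trans hT
  have hT0 : 0 < T := by linarith
  have hT1 : 1 ≤ T := by linarith
  have hNr : (1 : ℝ) ≤ N := by exact_mod_cast hN
  have hYr : (1 : ℝ) ≤ Y := by exact_mod_cast hY
  have hN0 : (0 : ℝ) < N := by linarith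
  have hG0 : 0 ≤ G := le_trans (Finset.sum_nonneg (fun _ _ => sq_nonneg _)) hG
  have hV2 : 0 < V ^ 2 := by positivity
  set g : ℝ := G / V ^ 2 with hg
  have hg0 : 0 ≤ g := by positivity
  have hTε : 1 ≤ T ^ ε := Real.one_le_rpow hT1 hε.le
  have hTε₁ : 1 ≤ T ^ ε₁ := Real.one_le_rpow hT1 hε₁0.le
  have hTεε : T ^ ε₁ ≤ T ^ ε := Real.rpow_le_rpow_of_exponent_le hT1 (by linarith)
  have hsN1 : 1 ≤ Real.sqrt N := Real.one_le_sqrt.2 hNr
  have hthr1 : C * T ^ ε * (Real.sqrt N * g) ≤ 1 := by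
    have h1 : C * T ^ ε * (Real.sqrt N * g) = C * T ^ ε * (Real.sqrt N * G) / V ^ 2 := by
      rw [hg]
      ring
    rw [h1, div_le_one hV2]
    exact hthr
  have hC1 : 1 ≤ C := by
    have : 0 ≤ 40 * C₂ * C₁ * (1 + C₁ ^ 2) + 4 * C₁ := by positivity
    rw [hC]
    linarith
  have hg1 : g ≤ 1 := by
    have h1 : 1 ≤ C * T ^ ε := by nlinarith
    have h2 : g ≤ Real.sqrt N * g := by nlinarith
    have h3 : Real.sqrt N * g ≤ C * T ^ ε * (Real.sqrt N * g) := by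
      have : 0 ≤ Real.sqrt N * g := by positivity
      nlinarith
    linarith
  set K : ℝ := C₁ * T ^ ε₁ with hK
  have hK0 : 0 ≤ K := by positivity
  have hthr2 : 4 * (K * g * Real.sqrt N) ≤ 1 := by
    have h1 : 4 * K ≤ C * T ^ ε := by
      have h2 : 4 * C₁ ≤ C := by
        have : 0 ≤ 40 * C₂ * C₁ * (1 + C₁ ^ 2) := by positivity
        rw [hC]
        linarith
      calc 4 * K = 4 * C₁ * T ^ ε₁ := by rw [hK]; ring
        _ ≤ C * T ^ ε := by gcongr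
    have h3 : 0 ≤ Real.sqrt N * g := by positivity
    calc 4 * (K * g * Real.sqrt N) = 4 * K * (Real.sqrt N * g) := by ring
      _ ≤ C * T ^ ε * (Real.sqrt N * g) := mul_le_mul_of_nonneg_right h1 h3
      _ ≤ 1 := hthr1
  -- the scales
  set h : ℝ := T ^ (1 / 2 : ℝ) with hh
  have hh1 : 1 ≤ h := Real.one_le_rpow hT1 (by norm_num)
  have hhT : h ≤ T := by
    calc h ≤ T ^ (1 : ℝ) := Real.rpow_le_rpow_of_exponent_le hT1 (by norm_num)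
      _ = T := Real.rpow_one T
  have hhh : h * h = T := by
    rw [hh, ← Real.rpow_add hT0]
    norm_num
  set L : ℕ := 8 * Y + ⌈h * g⌉₊ with hL
  have hLr : (L : ℝ) = 8 * Y + (⌈h * g⌉₊ : ℝ) := by
    rw [hL]
    push_cast
    ring
  have hc1 := Nat.ceil_lt_add_one (show 0 ≤ h * g by positivity)
  have hc2 := Nat.le_ceil (h * g)
  have hLup : (L : ℝ) ≤ 9 * Y + h * g := by
    rw [hLr]
    linarith
  have hLlo : h * g ≤ L := by
    rw [hLr]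
    linarith
  have hL1 : 1 ≤ L := by omega
  have hL1r : (1 : ℝ) ≤ L := by exact_mod_cast hL1
  have hL0 : (0 : ℝ) < L := by linarith
  have hhg : h * g ≤ T := by nlinarith
  have hLT3 : (L : ℝ) ≤ T ^ (3 : ℕ) := by
    have h1 : T ^ (3 : ℕ) = T * T ^ (2 : ℕ) := by ring
    have h2 : T ≤ T ^ (2 : ℕ) := by nlinarith
    have h3 : 16 * T ^ (2 : ℕ) ≤ T ^ (3 : ℕ) := by
      rw [h1]
      exact mul_le_mul_of_nonneg_right hT16 (by positivity)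
    linarith
  set X : ℝ := T ^ (1 + ε₁) with hX
  have hX0 : 0 < X := Real.rpow_pos_of_pos hT0 _
  have hXT : X ≤ T ^ (2 : ℕ) := by
    rw [← Real.rpow_natCast]
    exact Real.rpow_le_rpow_of_exponent_le hT1 (by push_cast; linarith)
  set Y' : ℕ := ⌈X / (N * L)⌉₊ with hY'
  have hNL1 : 1 ≤ (N : ℝ) * L := by nlinarith
  have hNL0 : 0 < (N : ℝ) * L := by linarith
  have hd1 := Nat.ceil_lt_add_one (show 0 ≤ X / (N * L) by positivity)
  have hd2 := Nat.le_ceil (X / (N * L))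
  have hY'1 : 1 ≤ Y' := by
    rw [hY', Nat.one_le_ceil_iff]
    positivity
  have hY'r : (1 : ℝ) ≤ Y' := by exact_mod_cast hY'1
  have hXN : X / (N * L) ≤ X := by
    rw [div_le_iff₀ hNL0]
    nlinarith
  have hY'T : (Y' : ℝ) ≤ T ^ (3 : ℕ) := by
    have h1 : T ^ (3 : ℕ) = T * T ^ (2 : ℕ) := by ring
    have h2 : 1 ≤ T ^ (2 : ℕ) := one_le_pow₀ hT1
    have h3 : 16 * T ^ (2 : ℕ) ≤ T ^ (3 : ℕ) := by
      rw [h1]
      exact mul_le_mul_of_nonneg_right hT16 (by positivity)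
    linarith
  have hNLY : X ≤ (N : ℝ) * L * Y' := by
    rw [div_le_iff₀ hNL0] at hd2
    linarith
  have hNLY2 : X ≤ (N : ℝ) * Y' * L := by
    linarith [mul_right_comm (N : ℝ) L Y']
  have hT35 : T ^ (3 : ℕ) ≤ T ^ (5 : ℕ) := pow_le_pow_right₀ hT1 (by norm_num)
  have hT36 : T ^ (3 : ℕ) ≤ T ^ (6 : ℕ) := pow_le_pow_right₀ hT1 (by norm_num)
  have hNM : ∀ M : ℕ, (M : ℝ) ≤ T ^ (3 : ℕ) → (N : ℝ) * M ≤ T ^ (5 : ℕ) := by
    intro M hM
    calc (N : ℝ) * M ≤ T * T ^ (3 : ℕ) := mul_le_mul hNT hM (Nat.cast_nonneg _) hT0.le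
      _ = T ^ (4 : ℕ) := by ring
      _ ≤ T ^ (5 : ℕ) := pow_le_pow_right₀ hT1 (by norm_num)
  have i1 := hB T hTT₁ Z hdiff hsep N L Y' hN hL1 hY'1 (hNM L hLT3) (hY'T.trans hT35) hNLY a V G
    hV hG hDP
  have i2 := hB T hTT₁ Z hdiff hsep N Y' L hN hY'1 hL1 (hNM Y' hY'T) (hLT3.trans hT35) hNLY2 a V G
    hV hG hDP
  set R : ℝ := (Z.card : ℝ) with hR
  have hR0 : 0 ≤ R := Nat.cast_nonneg _
  have hmain := K_two K g N L Y' R (QQ Z L) (QQ Z Y') hK0 hg0 hNr hL1r hY'r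
    (LVA_QQ_nonneg Z L) (LVA_QQ_nonneg Z Y') hthr2 i1 i2
  -- the bracket
  have hbr : (L : ℝ) + (K * g * Real.sqrt N) ^ 2 * Y' ≤ 10 * Y + (1 + K ^ 2 * T ^ ε₁) * (h * g) := by
    have hμ : K * g * Real.sqrt N ≤ 1 / 4 := by linarith
    have hμ0 : 0 ≤ K * g * Real.sqrt N := by positivity
    have hμ2 : (K * g * Real.sqrt N) ^ 2 ≤ 1 :=
      pow_le_one₀ hμ0 (hμ.trans (by norm_num))
    have hsq : (K * g * Real.sqrt N) ^ 2 = K ^ 2 * g ^ 2 * N := by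
      rw [mul_pow, mul_pow, Real.sq_sqrt hN0.le]
    have h1 : (K * g * Real.sqrt N) ^ 2 * (X / (N * L)) ≤ K ^ 2 * T ^ ε₁ * (h * g) := by
      have h2 : (K * g * Real.sqrt N) ^ 2 * (X / (N * L)) = K ^ 2 * g * (X * g / L) := by
        rw [hsq]
        field_simp
      have h3 : X * g / L ≤ h * T ^ ε₁ := by
        rw [div_le_iff₀ hL0]
        have h4 : X = h * h * T ^ ε₁ := by
          rw [hhh, hX, Real.rpow_add hT0, Real.rpow_one]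
        rw [h4]
        have h5 : 0 ≤ h * T ^ ε₁ := by positivity
        calc h * h * T ^ ε₁ * g = h * T ^ ε₁ * (h * g) := by ring
          _ ≤ h * T ^ ε₁ * L := mul_le_mul_of_nonneg_left hLlo h5
      rw [h2]
      calc K ^ 2 * g * (X * g / L) ≤ K ^ 2 * g * (h * T ^ ε₁) := by gcongr
        _ = K ^ 2 * T ^ ε₁ * (h * g) := by ring
    have h6 : (K * g * Real.sqrt N) ^ 2 * (Y' : ℝ) ≤
        (K * g * Real.sqrt N) ^ 2 * (X / (N * L) + 1) :=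
      mul_le_mul_of_nonneg_left hd1.le (sq_nonneg _)
    have h10 : (1 + K ^ 2 * T ^ ε₁) * (h * g) = h * g + K ^ 2 * T ^ ε₁ * (h * g) := by ring
    have h11 : (K * g * Real.sqrt N) ^ 2 * (X / (N * L) + 1) =
        (K * g * Real.sqrt N) ^ 2 * (X / (N * L)) + (K * g * Real.sqrt N) ^ 2 := by ring
    rw [h10]
    rw [h11] at h6
    linarith
  -- conclusion
  have hq := hQ T hT1 Z Y L hY (by omega) (hLT3.trans hT36)
  have hfin : (L : ℝ) * QQ Z Y ≤ (L : ℝ) * (C₂ * T ^ ε₁ * (Y * (4 * (K * g * N) *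
      (10 * Y + (1 + K ^ 2 * T ^ ε₁) * (h * g)) * R))) := by
    calc (L : ℝ) * QQ Z Y ≤ C₂ * T ^ ε₁ * (Y * QQ Z L) := hq
      _ ≤ C₂ * T ^ ε₁ * (Y * (4 * (K * g * N) *
          (L + (K * g * Real.sqrt N) ^ 2 * Y') * R * L)) := by gcongr
      _ ≤ C₂ * T ^ ε₁ * (Y * (4 * (K * g * N) *
          (10 * Y + (1 + K ^ 2 * T ^ ε₁) * (h * g)) * R * L)) := by gcongr
      _ = _ := by ring
  have hfin2 := le_of_mul_le_mul_left hfin hL0
  refine hfin2.trans ?_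
  have hK2 : 1 ≤ 1 + K ^ 2 * T ^ ε₁ := by
    have : 0 ≤ K ^ 2 * T ^ ε₁ := by positivity
    linarith
  have h7 : 10 * (Y : ℝ) + (1 + K ^ 2 * T ^ ε₁) * (h * g) ≤
      10 * (1 + K ^ 2 * T ^ ε₁) * (Y + h * g) :=
    K_le _ _ _ hK2 (by linarith) (by positivity)
  have h8 : C₂ * T ^ ε₁ * (4 * K) * (10 * (1 + K ^ 2 * T ^ ε₁)) ≤ C * T ^ ε := by
    have e1 : K ^ 2 * T ^ ε₁ = C₁ ^ 2 * (T ^ ε₁ * T ^ ε₁ * T ^ ε₁) := by
      rw [hK]
      ring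
    have e2 : 1 + K ^ 2 * T ^ ε₁ ≤ (1 + C₁ ^ 2) * (T ^ ε₁ * T ^ ε₁ * T ^ ε₁) := by
      rw [e1]
      exact K_pow _ _ hTε₁
    have e3 : T ^ ε₁ * T ^ ε₁ * (T ^ ε₁ * T ^ ε₁ * T ^ ε₁) ≤ T ^ ε := by
      rw [← Real.rpow_add hT0, ← Real.rpow_add hT0, ← Real.rpow_add hT0]
      exact Real.rpow_le_rpow_of_exponent_le hT1 (by linarith)
    calc C₂ * T ^ ε₁ * (4 * K) * (10 * (1 + K ^ 2 * T ^ ε₁))
        ≤ C₂ * T ^ ε₁ * (4 * K) * (10 * ((1 + C₁ ^ 2) * (T ^ ε₁ * T ^ ε₁ * T ^ ε₁))) := by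
          gcongr
      _ = 40 * C₂ * C₁ * (1 + C₁ ^ 2) * (T ^ ε₁ * T ^ ε₁ * (T ^ ε₁ * T ^ ε₁ * T ^ ε₁)) := by
          rw [hK]
          ring
      _ ≤ 40 * C₂ * C₁ * (1 + C₁ ^ 2) * T ^ ε := by gcongr
      _ ≤ C * T ^ ε := by
          have : 40 * C₂ * C₁ * (1 + C₁ ^ 2) ≤ C := by
            rw [hC]
            linarith
          gcongr
  have h9 : 0 ≤ (Y : ℝ) * R * (g * N * (Y + h * g)) := by positivity
  calc C₂ * T ^ ε₁ * (Y * (4 * (K * g * N) *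
      (10 * Y + (1 + K ^ 2 * T ^ ε₁) * (h * g)) * R))
      ≤ C₂ * T ^ ε₁ * (Y * (4 * (K * g * N) *
      (10 * (1 + K ^ 2 * T ^ ε₁) * (Y + h * g)) * R)) := by gcongr
    _ = C₂ * T ^ ε₁ * (4 * K) * (10 * (1 + K ^ 2 * T ^ ε₁)) *
        ((Y : ℝ) * R * (g * N * (Y + h * g))) := by ring
    _ ≤ C * T ^ ε * ((Y : ℝ) * R * (g * N * (Y + h * g))) := mul_le_mul_of_nonneg_right h8 h9
    _ = C * T ^ ε * (Y * R * (N * g * Y + h * N * g ^ 2)) := by ring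

/-- The algebra of K2: no absorption for the long polynomial. Here `h = H / U ^ 2`. -/
theorem K_long (K h M L Y R QL QY : ℝ) (hM : 0 ≤ M) (hL : 1 ≤ L)
    (hY : 1 ≤ Y) (hQL : 0 ≤ QL) (hQY : 0 ≤ QY)
    (h1 : QL ≤ K * h * (M * L ^ 2 * R + Real.sqrt (M * L / Y * (QL * QY)))) (h2 : L * R ^ 2 ≤ QL) :
    R ^ 2 ≤ 2 * K * h * M * L * R + (K * h) ^ 2 * M * (QY / Y) := by
  have hL0 : 0 < L := by linarith
  have hY0 : 0 < Y := by linarith
  have hc : 0 ≤ M * L / Y * QY := by positivity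
  have e1 : Real.sqrt (M * L / Y * (QL * QY)) = Real.sqrt QL * Real.sqrt (M * L / Y * QY) := by
    rw [← Real.sqrt_mul hQL]
    congr 1
    ring
  have e2 : K * h * (Real.sqrt QL * Real.sqrt (M * L / Y * QY)) ≤
      QL / 2 + (K * h) ^ 2 * (M * L / Y * QY) / 2 := by
    have g := sq_nonneg (Real.sqrt QL - K * h * Real.sqrt (M * L / Y * QY))
    have a1 : Real.sqrt QL ^ 2 = QL := Real.sq_sqrt hQL
    have a2 : Real.sqrt (M * L / Y * QY) ^ 2 = M * L / Y * QY := Real.sq_sqrt hc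
    have a3 : (Real.sqrt QL - K * h * Real.sqrt (M * L / Y * QY)) ^ 2 =
        Real.sqrt QL ^ 2 - 2 * (K * h * (Real.sqrt QL * Real.sqrt (M * L / Y * QY))) +
          (K * h) ^ 2 * Real.sqrt (M * L / Y * QY) ^ 2 := by ring
    rw [a3, a1, a2] at g
    linarith
  have e3 : QL / 2 ≤ K * h * (M * L ^ 2 * R) + (K * h) ^ 2 * (M * L / Y * QY) / 2 := by
    rw [e1, mul_add] at h1
    linarith
  have e4 : L * R ^ 2 ≤ L * (2 * K * h * M * L * R + (K * h) ^ 2 * M * (QY / Y)) := by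
    calc L * R ^ 2 ≤ QL := h2
      _ ≤ 2 * (K * h * (M * L ^ 2 * R)) + (K * h) ^ 2 * (M * L / Y * QY) := by linarith
      _ = L * (2 * K * h * M * L * R + (K * h) ^ 2 * M * (QY / Y)) := by ring
  exact le_of_mul_le_mul_left e4 hL0

theorem K2 (hLVB : LVB_stmt) (hK1 : K1_stmt) : BEY.K2_stmt := by
  intro ε hε
  set ε₁ : ℝ := min ε 1 / 8 with hε₁
  have hm : 0 < min ε 1 := lt_min hε one_pos
  have hε₁0 : 0 < ε₁ := by positivity
  have hε₁ε : 8 * ε₁ ≤ ε := by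
    rw [hε₁]
    linarith [min_le_left ε 1]
  have hε₁1 : ε₁ ≤ 1 / 8 := by
    rw [hε₁]
    linarith [min_le_right ε 1]
  obtain ⟨C₁, T₁, hC₁, hB⟩ := K_LVB hLVB ε₁ hε₁0
  obtain ⟨C₃, T₃, hC₃, hK⟩ := hK1 ε₁ hε₁0
  refine ⟨4 * C₁ + C₁ ^ 2 * C₃ + C₃, max (max T₁ T₃) 16, by positivity, ?_⟩
  intro T hT Z hdiff hsep N M hN hM hNT hMT a b V G U H hV hU hG hH hDN hDM hthr L hL hLT
  set C : ℝ := 4 * C₁ + C₁ ^ 2 * C₃ + C₃ with hC
  have hT16 : 16 ≤ T := (le_max_right _ _).trans hT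
  have hTT₁ : T₁ ≤ T := (le_max_left _ _).trans ((le_max_left _ _).trans hT)
  have hTT₃ : T₃ ≤ T := (le_max_right _ _).trans ((le_max_left _ _).trans hT)
  have hT0 : 0 < T := by linarith
  have hT1 : 1 ≤ T := by linarith
  have hNr : (1 : ℝ) ≤ N := by exact_mod_cast hN
  have hMr : (1 : ℝ) ≤ M := by exact_mod_cast hM
  have hN0 : (0 : ℝ) < N := by linarith
  have hM0 : (0 : ℝ) < M := by linarith
  have hG0 : 0 ≤ G := le_trans (Finset.sum_nonneg (fun _ _ => sq_nonneg _)) hG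
  have hH0 : 0 ≤ H := le_trans (Finset.sum_nonneg (fun _ _ => sq_nonneg _)) hH
  obtain ⟨g, hg⟩ : ∃ g : ℝ, g = G / V ^ 2 := ⟨_, rfl⟩
  obtain ⟨h, hh⟩ : ∃ h : ℝ, h = H / U ^ 2 := ⟨_, rfl⟩
  have hg0 : 0 ≤ g := by rw [hg]; positivity
  have hh0 : 0 ≤ h := by rw [hh]; positivity
  have hTε : 1 ≤ T ^ ε := Real.one_le_rpow hT1 hε.le
  obtain ⟨t, ht⟩ : ∃ t : ℝ, t = T ^ ε₁ := ⟨_, rfl⟩
  have ht1 : 1 ≤ t := by rw [ht]; exact Real.one_le_rpow hT1 hε₁0.le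
  have htε : t ≤ T ^ ε := by
    rw [ht]
    exact Real.rpow_le_rpow_of_exponent_le hT1 (by linarith)
  have ht4 : t * t * (t * t) ≤ T ^ ε := by
    rw [ht, ← Real.rpow_add hT0, ← Real.rpow_add hT0]
    exact Real.rpow_le_rpow_of_exponent_le hT1 (by linarith)
  -- the scales
  set L' : ℕ := ⌈L⌉₊ with hL'
  have hc1 := Nat.ceil_lt_add_one (show 0 ≤ L by linarith)
  have hc2 := Nat.le_ceil L
  have hL'1 : 1 ≤ L' := by
    rw [hL', Nat.one_le_ceil_iff]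
    linarith
  have hL'r : (1 : ℝ) ≤ L' := by exact_mod_cast hL'1
  have hL'2 : (L' : ℝ) ≤ 2 * L := by linarith
  have hL'0 : (0 : ℝ) < L' := by linarith
  have hL0 : 0 < L := by linarith
  set X : ℝ := T ^ (1 + ε₁) with hX
  have hX0 : 0 < X := Real.rpow_pos_of_pos hT0 _
  have hXt : X = T * t := by
    rw [hX, ht, Real.rpow_add hT0, Real.rpow_one]
  have hXT : X ≤ T ^ (5 / 4 : ℝ) := Real.rpow_le_rpow_of_exponent_le hT1 (by linarith)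
  have hX2 : X + 1 ≤ T ^ (2 : ℕ) := by
    have e1 : T ^ (2 : ℕ) = T ^ (5 / 4 : ℝ) * T ^ (3 / 4 : ℝ) := by
      rw [← Real.rpow_add hT0, ← Real.rpow_natCast]
      norm_num
    have e2 : (2 : ℝ) ≤ T ^ (3 / 4 : ℝ) := by
      calc (2 : ℝ) ≤ 16 ^ (3 / 4 : ℝ) := by
            rw [show (16 : ℝ) = 2 ^ (4 : ℝ) by norm_num, ← Real.rpow_mul (by norm_num)]
            norm_num
        _ ≤ T ^ (3 / 4 : ℝ) := Real.rpow_le_rpow (by norm_num) hT16 (by norm_num)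
    have e3 : 1 ≤ T ^ (5 / 4 : ℝ) := Real.one_le_rpow hT1 (by norm_num)
    rw [e1]
    nlinarith
  set Y : ℕ := ⌈X / (M * L')⌉₊ with hY
  have hML1 : 1 ≤ (M : ℝ) * L' := one_le_mul_of_one_le_of_one_le hMr hL'r
  have hML0 : 0 < (M : ℝ) * L' := by linarith
  have hd1 := Nat.ceil_lt_add_one (show 0 ≤ X / (M * L') by positivity)
  have hd2 := Nat.le_ceil (X / (M * L'))
  have hY1 : 1 ≤ Y := by
    rw [hY, Nat.one_le_ceil_iff]
    positivity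
  have hYr : (1 : ℝ) ≤ Y := by exact_mod_cast hY1
  have hY0 : (0 : ℝ) < Y := by linarith
  have hXM : X / (M * L') ≤ X := div_le_self hX0.le hML1
  have hYT : (Y : ℝ) ≤ T ^ (2 : ℕ) := by linarith
  have hMLY : X ≤ (M : ℝ) * L' * Y := by
    rw [div_le_iff₀ hML0] at hd2
    linarith
  have hT25 : T ^ (2 : ℕ) ≤ T ^ (5 : ℕ) := pow_le_pow_right₀ hT1 (by norm_num)
  have hMLT : (M : ℝ) * L' ≤ T ^ (5 : ℕ) := by
    calc (M : ℝ) * L' ≤ T ^ (2 : ℕ) * (T * T) := by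
          apply mul_le_mul hMT _ (by linarith) (by positivity)
          have : 2 * T ≤ T * T := mul_le_mul_of_nonneg_right (by linarith) hT0.le
          linarith
      _ = T ^ (4 : ℕ) := by ring
      _ ≤ T ^ (5 : ℕ) := pow_le_pow_right₀ hT1 (by norm_num)
  have i1 := hB T hTT₁ Z hdiff hsep M L' Y hM hL'1 hY1 hMLT (hYT.trans hT25) hMLY b U H hU hH hDM
  obtain ⟨R, hR⟩ : ∃ R : ℝ, R = (Z.card : ℝ) := ⟨_, rfl⟩
  have hR0 : 0 ≤ R := by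
    rw [hR]
    exact Nat.cast_nonneg _
  have i2 : (L' : ℝ) * R ^ 2 ≤ QQ Z L' := by
    rw [hR]
    exact QTR Z L'
  rw [← hR, ← hh, ← ht] at i1
  have hmain := K_long (C₁ * t) h M L' Y R (QQ Z L') (QQ Z Y) hM0.le hL'r hYr
    (LVA_QQ_nonneg Z L') (LVA_QQ_nonneg Z Y) i1 i2
  -- K1
  have hthr' : C₃ * T ^ ε₁ * (Real.sqrt N * G) ≤ V ^ 2 := by
    refine le_trans ?_ hthr
    have : C₃ ≤ C := by
      have : 0 ≤ 4 * C₁ + C₁ ^ 2 * C₃ := by positivity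
      rw [hC]
      linarith
    rw [← ht]
    gcongr
  have j1 := hK T hTT₃ Z hdiff hsep N Y hN hY1 hNT hYT a V G hV hG hDN hthr'
  rw [← hR, ← hg, ← ht] at j1
  set s : ℝ := T ^ (1 / 2 : ℝ) with hs
  have hs0 : 0 ≤ s := Real.rpow_nonneg hT0.le _
  have j2 : QQ Z Y / Y ≤ C₃ * t * (R * (N * g * Y + s * N * g ^ 2)) := by
    rw [div_le_iff₀ hY0]
    exact j1.trans (le_of_eq (by ring))
  have j3 : (Y : ℝ) ≤ t * (T / (M * L) + 1) := by
    have e1 : X / (M * L') ≤ t * (T / (M * L)) := by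
      rw [hXt]
      have e2 : T * t / (M * L') ≤ T * t / (M * L) :=
        div_le_div_of_nonneg_left (by positivity) (by positivity)
          (mul_le_mul_of_nonneg_left hc2 hM0.le)
      refine e2.trans (le_of_eq ?_)
      ring
    have e3 : t * (T / (M * L) + 1) = t * (T / (M * L)) + t := by ring
    linarith
  set q : ℝ := T / (M * L) + 1 with hq
  have hq0 : 0 ≤ q := by positivity
  have hfin : R ^ 2 ≤ R * (4 * C₁ * t * (M * h * L) +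
      C₁ ^ 2 * C₃ * (t * t * (t * t)) * (M * h ^ 2 * (N * g * q + s * N * g ^ 2))) := by
    have k1 : 2 * (C₁ * t) * h * M * L' * R ≤ R * (4 * C₁ * t * (M * h * L)) := by
      calc 2 * (C₁ * t) * h * M * L' * R ≤ 2 * (C₁ * t) * h * M * (2 * L) * R := by gcongr
        _ = R * (4 * C₁ * t * (M * h * L)) := by ring
    have k2 : N * g * Y + s * N * g ^ 2 ≤ t * (N * g * q + s * N * g ^ 2) := by
      have k3 : N * g * Y ≤ N * g * (t * q) := by gcongr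
      have k4 : s * N * g ^ 2 ≤ t * (s * N * g ^ 2) := le_mul_of_one_le_left (by positivity) ht1
      calc N * g * Y + s * N * g ^ 2 ≤ N * g * (t * q) + t * (s * N * g ^ 2) := add_le_add k3 k4
        _ = t * (N * g * q + s * N * g ^ 2) := by ring
    have k5 : (C₁ * t * h) ^ 2 * M * (QQ Z Y / Y) ≤
        (C₁ * t * h) ^ 2 * M * (C₃ * t * (R * (t * (N * g * q + s * N * g ^ 2)))) := by
      refine mul_le_mul_of_nonneg_left (j2.trans ?_) (by positivity)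
      gcongr
    refine hmain.trans ((add_le_add k1 k5).trans (le_of_eq ?_))
    ring
  rcases hR0.eq_or_lt with h0 | h0
  · rw [← hR, ← h0, ← hg, ← hh]
    positivity
  · have k6 : R ≤ 4 * C₁ * t * (M * h * L) +
      C₁ ^ 2 * C₃ * (t * t * (t * t)) * (M * h ^ 2 * (N * g * q + s * N * g ^ 2)) := by
      have : R * R ≤ R * (4 * C₁ * t * (M * h * L) +
        C₁ ^ 2 * C₃ * (t * t * (t * t)) * (M * h ^ 2 * (N * g * q + s * N * g ^ 2))) := by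
        refine le_trans (le_of_eq ?_) hfin
        ring
      exact le_of_mul_le_mul_left this h0
    rw [← hR, ← hg, ← hh]
    have k7 : 0 ≤ M * h * L := by positivity
    have k8 : 0 ≤ M * h ^ 2 * (N * g * q + s * N * g ^ 2) := by positivity
    have k9 : 4 * C₁ * t ≤ C * T ^ ε := by
      have : 4 * C₁ ≤ C := by
        have : 0 ≤ C₁ ^ 2 * C₃ + C₃ := by positivity
        rw [hC]
        linarith
      exact mul_le_mul this htε (by linarith) (by positivity)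
    have k10 : C₁ ^ 2 * C₃ * (t * t * (t * t)) ≤ C * T ^ ε := by
      have : C₁ ^ 2 * C₃ ≤ C := by
        have : 0 ≤ 4 * C₁ + C₃ := by positivity
        rw [hC]
        linarith
      exact mul_le_mul this ht4 (by positivity) (by positivity)
    calc R ≤ 4 * C₁ * t * (M * h * L) +
        C₁ ^ 2 * C₃ * (t * t * (t * t)) * (M * h ^ 2 * (N * g * q + s * N * g ^ 2)) := k6
      _ ≤ C * T ^ ε * (M * h * L) + C * T ^ ε * (M * h ^ 2 * (N * g * q + s * N * g ^ 2)) :=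
          add_le_add (mul_le_mul_of_nonneg_right k9 k7) (mul_le_mul_of_nonneg_right k10 k8)
      _ = C * T ^ ε * (M * h * L + M * h ^ 2 * (N * g * q + s * N * g ^ 2)) := by ring

end Pool.Agent.BD2
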