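import Pool.Agent.helper86.LV.Main
import Pool.Agent.helper24.DH.MONO
import Pool.Agent.helper26.DH.SHV
import Pool.Agent.helper28.DH.QTR

/-!
# Project BD2 (MP_4467b5_nt): monotonicity of the double zeta sums
-/

set_option autoImplicit false

open Complex MeasureTheory

namespace Pool.Agent.BD2

open Pool.Agent.helper84.DM Pool.Agent.helper78.ED Pool.Agent.DH

/-- The dyadic blocks of `IL Y`. -/
def MQ_B (Y i : ℕ) : Finset ℕ := (IL Y).filter (fun n => 2 ^ i * Y ≤ n ∧ n < 2 * (2 ^ i * Y))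

theorem MQ_split (Y : ℕ) (u : ℝ) :
    PL (IL Y) u = ∑ i ∈ Finset.range 4, PL (MQ_B Y i) u := by
  classical
  unfold PL
  rw [← Finset.sum_biUnion]
  · refine Finset.sum_congr ?_ (fun _ _ => rfl)
    ext n
    rw [Finset.mem_biUnion]
    constructor
    · intro hn
      have hn' := hn
      unfold IL at hn'
      rw [Finset.mem_Ioc] at hn'
      rcases lt_or_ge n (2 * Y) with h1 | h1
      · exact ⟨0, by simp, by rw [MQ_B, Finset.mem_filter]; exact ⟨hn, by omega, by omega⟩⟩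
      rcases lt_or_ge n (4 * Y) with h2 | h2
      · exact ⟨1, by simp, by rw [MQ_B, Finset.mem_filter]; exact ⟨hn, by omega, by omega⟩⟩
      rcases lt_or_ge n (8 * Y) with h3 | h3
      · exact ⟨2, by simp, by rw [MQ_B, Finset.mem_filter]; exact ⟨hn, by omega, by omega⟩⟩
      · exact ⟨3, by simp, by rw [MQ_B, Finset.mem_filter]; exact ⟨hn, by omega, by omega⟩⟩
    · rintro ⟨i, -, hi⟩
      rw [MQ_B, Finset.mem_filter] at hi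
      exact hi.1
  · intro i hi j hj hij
    rw [Function.onFun, Finset.disjoint_left]
    intro n hni hnj
    rw [MQ_B, Finset.mem_filter] at hni hnj
    rw [Finset.coe_range, Set.mem_Iio] at hi hj
    interval_cases i <;> interval_cases j <;> first | exact hij rfl | omega

theorem MQ_sq (Y : ℕ) (u : ℝ) :
    ‖PL (IL Y) u‖ ^ 2 ≤ 4 * ∑ i ∈ Finset.range 4, ‖PL (MQ_B Y i) u‖ ^ 2 := by
  rw [MQ_split]
  have h2 : ‖∑ i ∈ Finset.range 4, PL (MQ_B Y i) u‖ ≤ ∑ i ∈ Finset.range 4, ‖PL (MQ_B Y i) u‖ :=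
    norm_sum_le _ _
  have h3 := sq_sum_le_card_mul_sum_sq (s := Finset.range 4) (f := fun i => ‖PL (MQ_B Y i) u‖)
  rw [Finset.card_range] at h3
  have h4 := (pow_le_pow_left₀ (norm_nonneg _) h2 2).trans h3
  push_cast at h4
  exact h4

theorem MQ_block (hS : SHV_stmt) (hM : MONO_stmt) (Z : Finset ℂ) (Y L i : ℕ) (D : ℝ)
    (hY : 1 ≤ Y) (hL : 8 * Y ≤ L) (hi : i < 4) (hD : ∀ k ∈ IL L, d k ≤ D) (hD0 : 0 ≤ D)
    (hQ : 0 ≤ QQ Z L) :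
    (L : ℝ) * ∑ ρ ∈ Z, ∑ ρ' ∈ Z, ‖PL (MQ_B Y i) (ρ.im - ρ'.im)‖ ^ 2 ≤ 8 * Y * (D * QQ Z L) := by
  have h8 : 2 ^ i ≤ 8 := by interval_cases i <;> norm_num
  have hp : 1 ≤ 2 ^ i := Nat.one_le_two_pow
  have hiY : 2 ^ i * Y ≤ 8 * Y := Nat.mul_le_mul_right Y h8
  have hmem : ∀ n ∈ MQ_B Y i, 2 ^ i * Y ≤ n ∧ n < 2 * (2 ^ i * Y) := by
    intro n hn
    rw [MQ_B, Finset.mem_filter] at hn
    exact hn.2
  have hpY : 1 ≤ 2 ^ i * Y := Nat.one_le_iff_ne_zero.2 (by positivity)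
  have h0 : (0 : ℕ) ∉ MQ_B Y i := by
    intro h
    have := (hmem 0 h).1
    omega
  have h1 := hS Z (MQ_B Y i) (fun _ => 1) 0 h0 (fun _ => zero_le_one)
  have h2 := hM Z (2 ^ i * Y) L (MQ_B Y i) D hpY (hiY.trans hL) hmem hD
  have e1 : ∀ u : ℝ, ∑ n ∈ MQ_B Y i, (((1 : ℝ) : ℂ)) * (n : ℂ) ^ (-(((u + 0 : ℝ) : ℂ) * I)) =
      PL (MQ_B Y i) u := by
    intro u
    unfold PL
    refine Finset.sum_congr rfl (fun n _ => ?_)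
    rw [add_zero]
    push_cast
    ring
  have h3 : ∑ ρ ∈ Z, ∑ ρ' ∈ Z, ‖PL (MQ_B Y i) (ρ.im - ρ'.im)‖ ^ 2 ≤
      ∑ n ∈ MQ_B Y i, ∑ m ∈ MQ_B Y i, ‖RR Z (fun _ => 1) n m‖ ^ 2 := by
    refine le_trans (le_of_eq ?_) (h1.trans (le_of_eq ?_))
    · refine Finset.sum_congr rfl (fun ρ _ => Finset.sum_congr rfl (fun ρ' _ => ?_))
      rw [← e1]
    · refine Finset.sum_congr rfl (fun n _ => Finset.sum_congr rfl (fun m _ => ?_))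
      ring
  have hL0 : (0 : ℝ) ≤ L := Nat.cast_nonneg L
  have h5 : ((2 ^ i * Y : ℕ) : ℝ) ≤ 8 * Y := by exact_mod_cast hiY
  calc (L : ℝ) * ∑ ρ ∈ Z, ∑ ρ' ∈ Z, ‖PL (MQ_B Y i) (ρ.im - ρ'.im)‖ ^ 2
      ≤ (L : ℝ) * ∑ n ∈ MQ_B Y i, ∑ m ∈ MQ_B Y i, ‖RR Z (fun _ => 1) n m‖ ^ 2 :=
        mul_le_mul_of_nonneg_left h3 hL0
    _ ≤ ((2 ^ i * Y : ℕ) : ℝ) * D * QQ Z L := h2
    _ = ((2 ^ i * Y : ℕ) : ℝ) * (D * QQ Z L) := by ring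
    _ ≤ 8 * Y * (D * QQ Z L) := mul_le_mul_of_nonneg_right h5 (mul_nonneg hD0 hQ)

/-- Monotonicity. -/
def MQ_stmt : Prop := ∀ ε : ℝ, 0 < ε → ∃ C : ℝ, 0 < C ∧ ∀ T : ℝ, 1 ≤ T → ∀ (Z : Finset ℂ)
  (Y L : ℕ), 1 ≤ Y → 8 * Y ≤ L → (L : ℝ) ≤ T ^ (6 : ℕ) →
  (L : ℝ) * QQ Z Y ≤ C * T ^ ε * (Y * QQ Z L)

theorem MQ (hS : SHV_stmt) (hM : MONO_stmt) (hQID : QID_stmt) : MQ_stmt := by
  intro ε hε
  obtain ⟨C₁, hC₁, hdiv⟩ := divisor_bound (ε / 6) (by positivity)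
  refine ⟨128 * (C₁ * (8 : ℝ) ^ (ε / 6)), by positivity, ?_⟩
  intro T hT Z Y L hY hYL hL
  have hT0 : 0 < T := by linarith
  set D : ℝ := C₁ * (8 : ℝ) ^ (ε / 6) * T ^ ε with hD
  have hD0 : 0 ≤ D := by positivity
  have hDk : ∀ k ∈ IL L, d k ≤ D := by
    intro k hk
    unfold IL at hk
    rw [Finset.mem_Ioc] at hk
    have hk1 : 1 ≤ k := by omega
    refine (hdiv k hk1).trans ?_
    rw [hD, mul_assoc]
    refine mul_le_mul_of_nonneg_left ?_ hC₁.le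
    have h1 : (k : ℝ) ≤ 8 * T ^ (6 : ℕ) := by
      have : (k : ℝ) ≤ 8 * L := by exact_mod_cast hk.2
      linarith
    calc (k : ℝ) ^ (ε / 6) ≤ (8 * T ^ (6 : ℕ)) ^ (ε / 6) :=
          Real.rpow_le_rpow (Nat.cast_nonneg k) h1 (by positivity)
      _ = (8 : ℝ) ^ (ε / 6) * T ^ ε := by
          rw [Real.mul_rpow (by norm_num) (by positivity), ← Real.rpow_natCast,
            ← Real.rpow_mul hT0.le]
          congr 2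
          push_cast
          ring
  have hQ : 0 ≤ QQ Z L := LVA_QQ_nonneg Z L
  have hL0 : (0 : ℝ) ≤ L := Nat.cast_nonneg L
  have hb : ∀ i ∈ Finset.range 4,
      (L : ℝ) * ∑ ρ ∈ Z, ∑ ρ' ∈ Z, ‖PL (MQ_B Y i) (ρ.im - ρ'.im)‖ ^ 2 ≤ 8 * Y * (D * QQ Z L) :=
    fun i hi => MQ_block hS hM Z Y L i D hY hYL (Finset.mem_range.1 hi) hDk hD0 hQ
  have h1 : QQ Z Y ≤ 4 * ∑ i ∈ Finset.range 4,
      ∑ ρ ∈ Z, ∑ ρ' ∈ Z, ‖PL (MQ_B Y i) (ρ.im - ρ'.im)‖ ^ 2 := by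
    rw [hQID Z Y]
    have h2 : ∑ ρ ∈ Z, ∑ ρ' ∈ Z, ‖PL (IL Y) (ρ.im - ρ'.im)‖ ^ 2 ≤
        ∑ ρ ∈ Z, ∑ ρ' ∈ Z, 4 * ∑ i ∈ Finset.range 4, ‖PL (MQ_B Y i) (ρ.im - ρ'.im)‖ ^ 2 :=
      Finset.sum_le_sum fun ρ _ => Finset.sum_le_sum fun ρ' _ => MQ_sq Y _
    refine h2.trans (le_of_eq ?_)
    rw [Finset.sum_comm (s := Finset.range 4), Finset.mul_sum]
    refine Finset.sum_congr rfl (fun ρ _ => ?_)
    rw [Finset.sum_comm (s := Finset.range 4), Finset.mul_sum]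
  calc (L : ℝ) * QQ Z Y ≤ (L : ℝ) * (4 * ∑ i ∈ Finset.range 4,
      ∑ ρ ∈ Z, ∑ ρ' ∈ Z, ‖PL (MQ_B Y i) (ρ.im - ρ'.im)‖ ^ 2) := mul_le_mul_of_nonneg_left h1 hL0
    _ = 4 * ∑ i ∈ Finset.range 4, (L : ℝ) *
        ∑ ρ ∈ Z, ∑ ρ' ∈ Z, ‖PL (MQ_B Y i) (ρ.im - ρ'.im)‖ ^ 2 := by
        rw [← Finset.mul_sum]
        ring
    _ ≤ 4 * ∑ _i ∈ Finset.range 4, 8 * Y * (D * QQ Z L) :=
        mul_le_mul_of_nonneg_left (Finset.sum_le_sum hb) (by norm_num)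
    _ = 128 * (C₁ * (8 : ℝ) ^ (ε / 6)) * T ^ ε * (Y * QQ Z L) := by
        rw [Finset.sum_const, Finset.card_range, nsmul_eq_mul, hD]
        push_cast
        ring

end Pool.Agent.BD2
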